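import Pool.Agent.helper51.NP.Spec
import Pool.Agent.helper99.FC.T3
import Pool.Agent.Lib.SieveInterval

set_option autoImplicit false

/-!
# np S1S: the square of the sieve weight in a short interval
-/

namespace NPC

open Finset Real ArithmeticFunction Pool.Agent.helper39.MT Pool.Agent.helper85.FC

/-- The number of the integers of a class in an interval. -/
lemma S1S_card (u v d ν : ℕ) (hd : 0 < d) (huv : u ≤ v) :
    |(#{n ∈ Ioc u v | n ≡ ν [MOD d]} : ℝ) - ((v : ℝ) - u) / d| ≤ 1 := by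
  have h := Pool.Agent.Lib.BrunHooley.card_modEq_approx u (v - u) d ν hd
  rwa [Nat.add_sub_cancel' huv, Nat.cast_sub huv] at h

/-- **S1S**: the sum of the square of the sieve weight over a short interval. -/
theorem S1S : S1S_stmt := by
  intro k D₀ W A B h hD
  classical
  obtain ⟨C1, hC1, hprod⟩ := prod_small k
  obtain ⟨C2, hC2, homega⟩ := pow_omega_le (6 * k)
  obtain ⟨L₁, hL₁⟩ := T3_pow_le_exp_large (C1 * C2) (2 * k) (δ := 1 / 4) (by norm_num)
  refine ⟨max 1 L₁, fun a ha R hR hRa y hy hyR u v huv => ?_⟩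
  have ha1 : 1 ≤ a := (le_max_left _ _).trans ha
  have haL := hL₁ a ((le_max_right _ _).trans ha)
  have hprime : ∀ p : PS W R, (p : ℕ).Prime := fun p => (mem_PS.1 p.2).2.1
  have hsmall : ∀ p : ℕ, p.Prime → p ≤ 4 * k + 4 → p ∣ W := fun p hp hle =>
    h.small p hp (hle.trans hD)
  have hlarge : ∀ p : PS W R, 4 * k + 4 ≤ (p : ℕ) := by
    intro p
    by_contra hlt
    exact (mem_PS.1 p.2).2.2 (hsmall p (hprime p) (by omega))
  obtain ⟨c, hc1, hc2, hc3⟩ := FF_expand (fun p : PS W R => (p : ℕ)) hlarge y hy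
  choose ν hν1 hν2 hν3 using fun τ : PS W R → Option (Fin k) => ind_pat (R := R) h τ
  set S : ℝ := (v : ℝ) - u with hS
  set P : ℝ := ∏ p : PS W R, (1 + (k : ℝ) / (((p : ℕ) : ℝ) - 1)) ^ 2 with hP
  have hP0 : 0 ≤ P := prod_nonneg fun p _ => sq_nonneg _
  -- expansion of the expectation
  have hEx : Ex (fun p : PS W R => mu0 (p : ℝ))
      (fun e => FF (fun p : PS W R => (p : ℕ)) y e ^ 2) =
      ∑ τ, c τ * (1 / (dd (fun p : PS W R => (p : ℕ)) τ : ℝ)) := by
    have h1 : Ex (fun p : PS W R => mu0 (p : ℝ))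
        (fun e => FF (fun p : PS W R => (p : ℕ)) y e ^ 2) =
        ∑ τ, c τ * Ex (fun p : PS W R => mu0 (k := k) (((p : ℕ)) : ℝ)) (ind τ) := by
      unfold Ex
      simp only [hc1, mul_sum]
      rw [sum_comm]
      refine sum_congr rfl fun τ _ => sum_congr rfl fun e _ => ?_
      ring
    rw [h1]
    refine sum_congr rfl fun τ _ => ?_
    rw [Ex_mu0_ind (fun p : PS W R => (p : ℕ)) τ]
  -- expansion of the sum
  have hsum : ∑ n ∈ Ioc u v,
      FF (fun p : PS W R => (p : ℕ)) y (pat A B (PS W R) n) ^ 2 =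
      ∑ τ, c τ * (#{n ∈ Ioc u v |
        n ≡ ν τ [MOD dd (fun p : PS W R => (p : ℕ)) τ]} : ℝ) := by
    simp only [hc1]
    rw [sum_comm]
    refine sum_congr rfl fun τ _ => ?_
    rw [card_filter, Nat.cast_sum, mul_sum]
    refine sum_congr rfl fun n _ => ?_
    rw [hν2 τ n]
    split_ifs
    · simp
    · simp
  -- the error of one label
  have hone : ∀ τ : PS W R → Option (Fin k), c τ * (#{n ∈ Ioc u v |
        n ≡ ν τ [MOD dd (fun p : PS W R => (p : ℕ)) τ]} : ℝ) -
      S * (c τ * (1 / (dd (fun p : PS W R => (p : ℕ)) τ : ℝ))) ≤ |c τ| := by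
    intro τ
    have hd : 0 < dd (fun p : PS W R => (p : ℕ)) τ := (Nat.zero_le _).trans_lt (hν1 τ)
    have h1 := S1S_card u v _ (ν τ) hd huv
    rw [← hS] at h1
    set Z : ℝ := (#{n ∈ Ioc u v | n ≡ ν τ [MOD dd (fun p : PS W R => (p : ℕ)) τ]} : ℝ)
    have h2 : c τ * Z - S * (c τ * (1 / (dd (fun p : PS W R => (p : ℕ)) τ : ℝ))) =
        c τ * (Z - S / (dd (fun p : PS W R => (p : ℕ)) τ : ℝ)) := by ring
    rw [h2]
    refine (le_abs_self _).trans ?_
    rw [abs_mul]
    exact (mul_le_mul_of_nonneg_left h1 (abs_nonneg _)).trans_eq (mul_one _)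
  -- the sum of the coefficients
  have hcsum : ∑ τ, |c τ| ≤ P * (C2 * Real.exp (a / 4)) := by
    have h1 : ∑ τ, |c τ| = ∑ τ : PS W R → Option (Fin k) with
        (dd (fun p : PS W R => (p : ℕ)) τ : ℝ) ≤ Real.exp (a / 8), |c τ| := by
      symm
      apply sum_filter_of_ne
      intro τ _ hτ
      have hτ' : c τ ≠ 0 := fun h0 => hτ (by rw [h0, abs_zero])
      obtain ⟨σ, σ', hσ, hσ', hsub⟩ := hc3 τ hτ'
      have h4 := T3_dd_le_mul (fun p : PS W R => (p : ℕ)) (fun p => (hprime p).one_le) τ σ σ' hsub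
      have h5 : (dd (fun p : PS W R => (p : ℕ)) τ : ℝ) ≤
          (dd (fun p : PS W R => (p : ℕ)) σ : ℝ) * (dd (fun p : PS W R => (p : ℕ)) σ' : ℝ) := by
        exact_mod_cast h4
      refine h5.trans ((mul_le_mul (hyR σ hσ) (hyR σ' hσ') (Nat.cast_nonneg _)
        (Real.exp_pos _).le).trans (le_of_eq ?_))
      rw [← Real.exp_add]
      congr 1
      ring
    have h2 := sum_labels' k W R (Real.exp (a / 8)) (fun _ => 1) (fun _ => zero_le_one) 6
    simp only [mul_one] at h2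
    have h3 : ∑ D ∈ Icc 1 ⌊Real.exp (a / 8)⌋₊ with Squarefree D ∧ Nat.Coprime D W,
        ((6 * k : ℕ) : ℝ) ^ D.primeFactors.card ≤ C2 * Real.exp (a / 4) := by
      have hfl : ((⌊Real.exp (a / 8)⌋₊ : ℕ) : ℝ) ≤ Real.exp (a / 8) :=
        Nat.floor_le (Real.exp_pos _).le
      calc ∑ D ∈ Icc 1 ⌊Real.exp (a / 8)⌋₊ with Squarefree D ∧ Nat.Coprime D W,
            ((6 * k : ℕ) : ℝ) ^ D.primeFactors.card
          ≤ ∑ D ∈ Icc 1 ⌊Real.exp (a / 8)⌋₊, ((6 * k : ℕ) : ℝ) ^ D.primeFactors.card :=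
            sum_le_sum_of_subset_of_nonneg (filter_subset _ _) fun _ _ _ => by positivity
        _ ≤ ∑ _D ∈ Icc 1 ⌊Real.exp (a / 8)⌋₊, C2 * Real.exp (a / 8) := by
            refine sum_le_sum fun D hD' => ?_
            rw [mem_Icc] at hD'
            refine (homega D (by omega)).trans (mul_le_mul_of_nonneg_left ?_ hC2.le)
            have hD1 : (1 : ℝ) ≤ D := by exact_mod_cast hD'.1
            calc (D : ℝ) ^ (1 / 4 : ℝ) ≤ (D : ℝ) ^ (1 : ℝ) :=
                  Real.rpow_le_rpow_of_exponent_le hD1 (by norm_num)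
              _ = D := Real.rpow_one _
              _ ≤ ((⌊Real.exp (a / 8)⌋₊ : ℕ) : ℝ) := by exact_mod_cast hD'.2
              _ ≤ _ := hfl
        _ = ((⌊Real.exp (a / 8)⌋₊ : ℕ) : ℝ) * (C2 * Real.exp (a / 8)) := by
            rw [sum_const, Nat.card_Icc, nsmul_eq_mul, Nat.add_sub_cancel]
        _ ≤ Real.exp (a / 8) * (C2 * Real.exp (a / 8)) :=
            mul_le_mul_of_nonneg_right hfl (by positivity)
        _ = C2 * (Real.exp (a / 8) * Real.exp (a / 8)) := by ring
        _ = C2 * Real.exp (a / 4) := by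
            rw [← Real.exp_add]
            congr 2
            ring
    rw [h1]
    calc ∑ τ : PS W R → Option (Fin k) with
          (dd (fun p : PS W R => (p : ℕ)) τ : ℝ) ≤ Real.exp (a / 8), |c τ|
        ≤ ∑ τ : PS W R → Option (Fin k) with
          (dd (fun p : PS W R => (p : ℕ)) τ : ℝ) ≤ Real.exp (a / 8),
            P * ((6 : ℕ) : ℝ) ^ (#{p | τ p ≠ none}) := by
          refine sum_le_sum fun τ _ => ?_
          have := hc2 τ
          exact_mod_cast this
      _ = P * ∑ τ : PS W R → Option (Fin k) with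
          (dd (fun p : PS W R => (p : ℕ)) τ : ℝ) ≤ Real.exp (a / 8),
            ((6 : ℕ) : ℝ) ^ (#{p | τ p ≠ none}) := by rw [mul_sum]
      _ ≤ P * (C2 * Real.exp (a / 4)) := mul_le_mul_of_nonneg_left (h2.trans h3) hP0
  have hPle : P ≤ C1 * a ^ (2 * k) := by
    refine (hprod W R hR hsmall).trans (mul_le_mul_of_nonneg_left ?_ hC1.le)
    have hR1 : (1 : ℝ) < R := by exact_mod_cast (by omega : 1 < R)
    have h1 : Real.log R ≤ a := by
      rw [Real.log_le_iff_le_exp (by linarith)]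
      exact hRa
    exact pow_le_pow_left₀ (Real.log_nonneg hR1.le) h1 _
  rw [hsum, hEx, mul_sum]
  have hfin : ∑ τ, (c τ * (#{n ∈ Ioc u v |
        n ≡ ν τ [MOD dd (fun p : PS W R => (p : ℕ)) τ]} : ℝ) -
          S * (c τ * (1 / (dd (fun p : PS W R => (p : ℕ)) τ : ℝ)))) ≤ Real.exp (a / 2) := by
    calc ∑ τ, (c τ * (#{n ∈ Ioc u v |
          n ≡ ν τ [MOD dd (fun p : PS W R => (p : ℕ)) τ]} : ℝ) -
            S * (c τ * (1 / (dd (fun p : PS W R => (p : ℕ)) τ : ℝ))))
        ≤ ∑ τ, |c τ| := sum_le_sum fun τ _ => hone τ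
      _ ≤ C1 * a ^ (2 * k) * (C2 * Real.exp (a / 4)) := by
          refine hcsum.trans ?_
          exact mul_le_mul_of_nonneg_right hPle (by positivity)
      _ = (C1 * C2 * a ^ (2 * k)) * Real.exp (a / 4) := by ring
      _ ≤ Real.exp (1 / 4 * a) * Real.exp (a / 4) :=
          mul_le_mul_of_nonneg_right haL (by positivity)
      _ = Real.exp (a / 2) := by
          rw [← Real.exp_add]
          congr 1
          ring
  rw [sum_sub_distrib] at hfin
  linarith

end NPC
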